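import Pool.Agent.J4.H34.ED.Powers

/-!
# The even cohomology of powers and products: no zeros at the edge if the traces have coherent signs

`Y_j`, `j ∈ ι`, are finitely many smooth projective varieties over a number field `K`, for example over
`K = ℚ`.  A smooth projective variety over `K` is a smooth projective variety over `ℚ` with the same
`L`-functions.  Nothing is assumed about the automorphy of the cohomology.

1. If at almost all primes the traces of Frobenius on the even cohomology of all `Y_j` are nonnegative and
those on the odd cohomology of all `Y_j` have the same sign, then no `L(H^i(∏ Y_j), s)` of even degree `i`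
vanishes at the edge.
2. Let the even cohomology of `Y_j` have bases which are permuted by the Galois group (up to Tate twists),
and let the odd cohomology of all `Y_j` be that of one variety `Y₀`, with a single odd cohomology group.
For example `∏ Y_j` is a power of a curve, of a complete intersection of odd dimension, or of a
Calabi-Yau threefold or rationally connected threefold whose divisor classes have a basis of this kind.
Then `L(H^{2n}(∏ Y_j), s)` has at the edge a pole of at least the order which is given by the products of
the elements of the bases.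
3. If there is no odd cohomology and at least half of the eigenvalues on the even cohomology groups
are powers of `q`, for example for products of K3 surfaces with at least eleven independent classes of
divisors defined over `K`, then no `L(H^i(∏ Y_j), s)` vanishes at the edge, in all degrees `i`.

The definitions are in `Pool.Agent.J4.H34.ED.PowersDefs`, `Pool.Agent.J4.H34.ED.KummerDefs`,
`Pool.Agent.J4.H34.ED.MultiDefs`, `Pool.Agent.W353.TD.Defs` and `Pool.Agent.W353.EF.Defs`.
-/

set_option autoImplicit false

namespace Pool.Agent.Results.MP_2b9663_nt.CoherentProducts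

open NumberField IsDedekindDomain Filter Topology Polynomial
open Pool.Agent.J4.H34.ED (Variety IsMultiSystem IsCoherent IsPermutationEven IsOneOdd IsHalfTate
  EvenBasis)
open Pool.Agent.W353.EF (size HasOrder)

/-- Let `Y` be a finite family of varieties over `K`.
(1) If `Y` is coherent, then `log |L(H^{2n}(∏ Y_j), n + 1 + ε)| / log(1/ε) ≥ -η` for all small `ε > 0` (no
continuation is assumed), and a meromorphic continuation of `L(H^{2n}(∏ Y_j), s)` to a neighbourhood of
the edge `n + 1` does not vanish there.
(2) If the even cohomology of each `Y_j` is of permutation type and the odd cohomology is that of one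
variety with one odd cohomology group, the same values are at least `r - η`, and the order of a
continuation is at most `-r`, where `r` is the number of the Galois orbits of the basis of the part of
`H^{2n}(∏ Y_j)` that comes from the even cohomology of the factors.
(3) If `Y` is half Tate, then the values of `log |L(H^i(∏ Y_j), i/2 + 1 + ε)| / log(1/ε)` are at least `-η` for
all small `ε > 0`, and a continuation does not vanish at the edge, in every degree `i`. -/
theorem result {K : Type} [Field K] [NumberField K] {ι : Type} [Fintype ι] (Y : ι → Variety K) :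
    (IsCoherent Y → ∀ (n : ℕ) (B : HeightOneSpectrum (𝓞 K) → ℂ[X]), IsMultiSystem Y (2 * n) B →
      (∀ η : ℝ, 0 < η → ∀ᶠ ε : ℝ in 𝓝[>] 0, -η ≤ size (2 * n) B ε) ∧
      ∀ m : ℤ, HasOrder (2 * n) B m → m ≤ 0) ∧
    (∀ (S : ι → ℕ → Type) [∀ j k, Fintype (S j k)] [∀ j k, DecidableEq (S j k)]
      [∀ j k, MulAction Gal(AlgebraicClosure K/K) (S j k)],
      (∀ j, IsPermutationEven (Y j) (S j)) → IsOneOdd Y →
      ∀ (n : ℕ) (B : HeightOneSpectrum (𝓞 K) → ℂ[X]), IsMultiSystem Y (2 * n) B →
      (∀ η : ℝ, 0 < η → ∀ᶠ ε : ℝ in 𝓝[>] 0,
        (Nat.card (MulAction.orbitRel.Quotient Gal(AlgebraicClosure K/K) (EvenBasis Y S n)) : ℝ) - η ≤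
          size (2 * n) B ε) ∧
      ∀ m : ℤ, HasOrder (2 * n) B m →
        m ≤ -(Nat.card (MulAction.orbitRel.Quotient Gal(AlgebraicClosure K/K)
          (EvenBasis Y S n)) : ℤ)) ∧
    (IsHalfTate Y → ∀ (i : ℕ) (B : HeightOneSpectrum (𝓞 K) → ℂ[X]), IsMultiSystem Y i B →
      (∀ η : ℝ, 0 < η → ∀ᶠ ε : ℝ in 𝓝[>] 0, -η ≤ size i B ε) ∧
      ∀ m : ℤ, HasOrder i B m → m ≤ 0) :=
  ⟨fun h _ _ hB => Pool.Agent.J4.H34.ED.coherent_even h hB,
    fun _ _ _ _ hS h1 _ _ hB => Pool.Agent.J4.H34.ED.powers_even hS h1 hB,
    fun h _ _ hB => Pool.Agent.J4.H34.ED.coherent_all (Pool.Agent.J4.H34.ED.half_coherent h) h.1 hB⟩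

end Pool.Agent.Results.MP_2b9663_nt.CoherentProducts
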