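import Pool.Agent.J4.H34.ED.Kummer

/-!
# No zeros at the edge for Kummer surfaces and for products of Kummer threefolds

`A` is an abelian variety of dimension `g` over a number field `K`, for example over `K = ℚ`, and `X`
its Kummer variety: the quotient by `-1` of the blow-up of `A` at the set `S` of the `2^{2g}` points of
order dividing two.  A smooth projective variety over `K` is a smooth projective variety over `ℚ` with
the same `L`-functions.  The theorem answers the question for Kummer surfaces (`g = 2`) and for all
products of Kummer threefolds (`g = 3`), in all degrees, over all number fields.  Nothing is assumed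
about the automorphy of `A` or about the Galois action on its points.

The proof: at almost all primes the trace of Frobenius on `∧^{2j} H¹(A)`, divided by `q^j`, is at least
`g - 4`, since it is `2 + x y` for `g = 2` and `3 + x y + x z + y z` for `g = 3`, where
`x, y, z ∈ [-2, 2]`; the trace on the classes of the exceptional divisors is the number of the fixed points
in `S`, it is at least one, and its mean value is the number `r ≥ 2` of the orbits in `S` by the theorem of
Chebotarev and the lemma of Burnside.

The definitions are in `Pool.Agent.J4.H34.ED.KummerDefs`, `Pool.Agent.J4.H34.ED.MultiDefs`,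
`Pool.Agent.W353.TD.Defs` and `Pool.Agent.W353.EF.Defs`.
-/

set_option autoImplicit false

namespace Pool.Agent.Results.MP_2b9663_nt.KummerVarieties

open NumberField IsDedekindDomain Filter Topology Polynomial
open Pool.Agent.J4.H34.ED (Variety IsMultiSystem IsKummer)
open Pool.Agent.W353.EF (IsEulerSystem size HasOrder)

/-- (1) Let `X` be a Kummer surface (`g = 2`) or a Kummer threefold (`g = 3`) over `K`, and `r ≥ 2` the
number of the Galois orbits of points of order dividing two.  For `0 < j < g` the values of
`log |L(H^{2j}(X), j + 1 + ε)| / log(1/ε)` are at least `r + g - 4 - η` for all small `ε > 0` (no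
continuation is assumed), and if there is a meromorphic continuation to a neighbourhood of `j + 1`, its
order is at most `4 - g - r`: it does not vanish for `g = 2`, and it has a pole for `g = 3`.  In no
degree `i ≤ 2g` does a meromorphic continuation of `L(H^i(X), s)` vanish at the edge `i/2 + 1`.
(2) Let `X_j` be finitely many Kummer threefolds over `K`.  In no degree `i` does a meromorphic continuation
of `L(H^i(∏ X_j), s)` vanish at the edge. -/
theorem result {K : Type} [Field K] [NumberField K] :
    (∀ g : ℕ, g = 2 ∨ g = 3 → ∀ (A X : Variety K) (S : Type) [Fintype S] [DecidableEq S]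
      [MulAction Gal(AlgebraicClosure K/K) S], IsKummer g A X S →
      2 ≤ Nat.card (MulAction.orbitRel.Quotient Gal(AlgebraicClosure K/K) S) ∧
      (∀ j, 0 < j → j < g → ∀ B : HeightOneSpectrum (𝓞 K) → ℂ[X],
        IsEulerSystem X.X X.d (2 * j) (X.b (2 * j)) B →
        (∀ η : ℝ, 0 < η → ∀ᶠ ε : ℝ in 𝓝[>] 0,
          (Nat.card (MulAction.orbitRel.Quotient Gal(AlgebraicClosure K/K) S) : ℝ) + g - 4 - η ≤
            size (2 * j) B ε) ∧
        ∀ m : ℤ, HasOrder (2 * j) B m →
          m ≤ 4 - g - Nat.card (MulAction.orbitRel.Quotient Gal(AlgebraicClosure K/K) S)) ∧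
      ∀ i ≤ 2 * g, ∀ (B : HeightOneSpectrum (𝓞 K) → ℂ[X]) (m : ℤ),
        IsEulerSystem X.X X.d i (X.b i) B → HasOrder i B m → m ≤ 0) ∧
    ∀ (ι : Type) [Fintype ι] (A X : ι → Variety K) (S : ι → Type) [∀ j, Fintype (S j)]
      [∀ j, DecidableEq (S j)] [∀ j, MulAction Gal(AlgebraicClosure K/K) (S j)],
      (∀ j, IsKummer 3 (A j) (X j) (S j)) →
      ∀ (i : ℕ) (B : HeightOneSpectrum (𝓞 K) → ℂ[X]), IsMultiSystem X i B →
      (∀ η : ℝ, 0 < η → ∀ᶠ ε : ℝ in 𝓝[>] 0, -η ≤ size i B ε) ∧
      ∀ m : ℤ, HasOrder i B m → m ≤ 0 :=
  ⟨fun _ hg _ _ _ _ _ _ h => ⟨Pool.Agent.J4.H34.ED.two_le_orbits h (by omega),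
      fun _ h0 hj _ hB => Pool.Agent.J4.H34.ED.kummer_even hg h h0 hj hB,
      fun _ hi _ _ hB hm => Pool.Agent.J4.H34.ED.kummer_all hg h hi hB hm⟩,
    fun _ _ _ _ _ _ _ _ h _ _ hB => Pool.Agent.J4.H34.ED.kummer_products h hB⟩

end Pool.Agent.Results.MP_2b9663_nt.KummerVarieties
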