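import Pool.Agent.J4.H34.ED.Ell

/-!
# Products with modular elliptic curves in all degrees

`Y` is a smooth projective variety over a number field `K`, and `E` runs through modular elliptic
curves over `ℚ`, no two of them isogenous.  The theorem compares the orders at the edge `s₀ = i/2 + 1`
of `L(H^i(Y × E), s)`, in all degrees `i ≥ 2`, with those of the L-functions of `Y`.  By Künneth
`H^i(Y × E)` is the sum of `H^i(Y)`, `H^{i-1}(Y) ⊗ H¹(E)` and `H^{i-2}(Y)(-1)`; nothing is assumed about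
the automorphy of the cohomology of `Y`.  The case `i = 2` is in the starting file
`MP_1f4fc7_nt.ModularEllipticFactors`, from which the orthogonality of the newforms is taken.

The definitions are in `Pool.Agent.J4.H34.ED.EllDefs`, `Pool.Agent.Y722.EP.Defs` and
`Pool.Agent.W353.EF.Defs`.  `size i B ε` is `log |L(i/2 + 1 + ε)| / log(1/ε)`, and `HasOrder i B (-r)`
means that there is a meromorphic continuation to a neighbourhood of `i/2 + 1`, with a pole of order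
`r` at this point (a zero of order `-r` if `r < 0`).
-/

set_option autoImplicit false

namespace Pool.Agent.Results.MP_2b9663_nt.ModularEllipticProducts

open NumberField IsDedekindDomain Filter Topology Polynomial
open Pool.Agent.W353.EF (LFun size HasOrder IsEulerSystem)
open Pool.Agent.Y722.EP (IsModular NotIsogenous)
open Pool.Agent.J4.H34.ED (IsEllipticProduct)

/-- **Products with modular elliptic curves in all degrees.**  Let `Y` be a projective variety of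
dimension `d` over a number field `K`, given by the equations `X`, with Betti numbers `b k`, and let
`E_i : y² = x³ + a_i x + a'_i`, `i ∈ ι`, be modular elliptic curves over `ℚ`, pairwise not isogenous.
1. (No continuation is assumed.)  Let `k + 2 ≤ 2d` and let `x_i(ε)` be the size of
`L(H^{k+2}(Y × E_i), s)` minus the sizes of `L(H^{k+2}(Y), s)` and of `L(H^k(Y)(-1), s)`.  For every
finite set `J` of indices, `η > 0` and all small `ε > 0`, the sum of `x_i(ε)²` over the `i ∈ J` with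
`x_i(ε) > 0` is at most `b_{k+1}² [K : ℚ] + η`, and the sum over the `i ∈ J` with `x_i(ε) < 0` is at
most `b_{k+1}² [K : ℚ] + η`.
2. If there are meromorphic continuations, with poles of orders `r_i` for `Y × E_i` and `ρ₂`, `ρ₀` for
`Y`, then `r_i > ρ₀ + ρ₂` for at most `b_{k+1}² [K : ℚ]` indices, `r_i < ρ₀ + ρ₂` for at most
`b_{k+1}² [K : ℚ]` indices, and `r_i = ρ₀ + ρ₂` for all others.
3. Suppose that `L(H^k(Y), s)` has a meromorphic continuation to a neighbourhood of `k/2 + 1` which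
does not vanish there, for all `k`, and that all `L(H^i(Y × E_j), s)` have meromorphic continuations.
Then for all but at most `[K : ℚ] ∑_{0 < k < 2d} b_k²` indices `j` no `L(H^i(Y × E_j), s)`,
`2 ≤ i ≤ 2d`, vanishes at `i/2 + 1`. -/
theorem result (K : Type) [Field K] [NumberField K] (n d : ℕ) (b : ℕ → ℕ)
    (X : Set (MvPolynomial (Fin n) (𝓞 K))) (ι : Type) (a a' : ι → ℤ)
    (hΔ : ∀ i, 4 * a i ^ 3 + 27 * a' i ^ 2 ≠ 0) (hmod : ∀ i, IsModular (a i) (a' i))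
    (hne : ∀ i j, i ≠ j → NotIsogenous (a i) (a' i) (a j) (a' j)) :
    (∀ (k : ℕ) (C₀ C₂ : HeightOneSpectrum (𝓞 K) → ℂ[X])
      (B : ι → HeightOneSpectrum (𝓞 K) → ℂ[X]), k + 2 ≤ 2 * d →
      IsEulerSystem X d k (b k) C₀ → IsEulerSystem X d (k + 2) (b (k + 2)) C₂ →
      (∀ i, IsEllipticProduct X d k (b k) (b (k + 1)) (b (k + 2)) (a i) (a' i) (B i)) →
      (∀ (J : Finset ι) (η : ℝ), 0 < η → ∀ᶠ ε : ℝ in 𝓝[>] 0,
        LFun C₀ ((k : ℂ) / 2 + 1 + ε) ≠ 0 ∧ LFun C₂ (((k + 2 : ℕ) : ℂ) / 2 + 1 + ε) ≠ 0 ∧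
        (∀ i ∈ J, LFun (B i) (((k + 2 : ℕ) : ℂ) / 2 + 1 + ε) ≠ 0) ∧
        ∑ i ∈ J, (max (size (k + 2) (B i) ε - size (k + 2) C₂ ε - size k C₀ ε) 0) ^ 2 ≤
          (b (k + 1) : ℝ) ^ 2 * Module.finrank ℚ K + η ∧
        ∑ i ∈ J, (max (-(size (k + 2) (B i) ε - size (k + 2) C₂ ε - size k C₀ ε)) 0) ^ 2 ≤
          (b (k + 1) : ℝ) ^ 2 * Module.finrank ℚ K + η) ∧
      ∀ (ρ₀ ρ₂ : ℤ) (r : ι → ℤ), HasOrder k C₀ (-ρ₀) → HasOrder (k + 2) C₂ (-ρ₂) →
        (∀ i, HasOrder (k + 2) (B i) (-r i)) →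
        {i | r i ≠ ρ₀ + ρ₂}.Finite ∧
        {i | ρ₀ + ρ₂ < r i}.ncard ≤ b (k + 1) ^ 2 * Module.finrank ℚ K ∧
        {i | r i < ρ₀ + ρ₂}.Finite ∧
        {i | r i < ρ₀ + ρ₂}.ncard ≤ b (k + 1) ^ 2 * Module.finrank ℚ K) ∧
    ∀ (C : ℕ → HeightOneSpectrum (𝓞 K) → ℂ[X]) (ρ : ℕ → ℤ)
      (B : ι → ℕ → HeightOneSpectrum (𝓞 K) → ℂ[X]) (r : ι → ℕ → ℤ),
      (∀ k ≤ 2 * d, IsEulerSystem X d k (b k) (C k) ∧ HasOrder k (C k) (-ρ k) ∧ 0 ≤ ρ k) →
      (∀ i, ∀ k, k + 2 ≤ 2 * d → IsEllipticProduct X d k (b k) (b (k + 1)) (b (k + 2))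
        (a i) (a' i) (B i (k + 2)) ∧ HasOrder (k + 2) (B i (k + 2)) (-r i (k + 2))) →
      {i | ∃ k, k + 2 ≤ 2 * d ∧ r i (k + 2) < 0}.Finite ∧
      {i | ∃ k, k + 2 ≤ 2 * d ∧ r i (k + 2) < 0}.ncard ≤
        Module.finrank ℚ K * ∑ k ∈ Finset.Ioo 0 (2 * d), b k ^ 2 := by
  refine ⟨fun k C₀ C₂ B hk h₀ h₂ hB => ⟨fun J η hη => ?_, fun ρ₀ ρ₂ r hr₀ hr₂ hr =>
    Pool.Agent.J4.H34.ED.ell_main_card hk hΔ hmod hne h₀ h₂ hB hr₀ hr₂ hr⟩,
    fun C ρ B r hC hB => Pool.Agent.J4.H34.ED.ell_all hΔ hmod hne hC hB⟩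
  have h1 := Pool.Agent.J4.H34.ED.ell_main_size hk hΔ hmod hne h₀ h₂ hB J hη
  have h3 : ∀ᶠ ε : ℝ in 𝓝[>] 0, ∀ i ∈ J, LFun (B i) (((k + 2 : ℕ) : ℂ) / 2 + 1 + ε) ≠ 0 := by
    rw [Filter.eventually_all_finset]
    exact fun i _ => (Pool.Agent.J4.H34.ED.ell_size hk (a i) (a' i) (hB i)).1
  filter_upwards [h1.1, h1.2, h3, (Pool.Agent.J4.H34.ED.base_size (by omega) h₀).1,
    (Pool.Agent.J4.H34.ED.base_size hk h₂).1] with ε g1 g2 g3 g4 g5
  exact ⟨g4, g5, g3, g1, g2⟩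

end Pool.Agent.Results.MP_2b9663_nt.ModularEllipticProducts
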