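import Pool.Agent.J4.H34.ED.Mid

/-!
# Positivity at the edge for the products of smooth projective varieties

`Y_j`, `j ∈ ι`, are smooth projective varieties over a number field `K` (a smooth projective variety
over `K` is a smooth projective variety over `ℚ`, with the same L-functions).  The theorem is about
the orders at the edges `s₀ = i/2 + 1` of the L-functions of `H^i(Y_j × Y_k)`, for all `i`, `j`, `k`
together.  Nothing is assumed about the automorphy of the cohomology.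

The definitions are in `Pool.Agent.J4.H34.ED.Defs` and `Pool.Agent.W353.EF.Defs`.  In particular
`size i B ε` is `log |L(i/2 + 1 + ε)| / log(1/ε)`, which tends to the order `r` of the pole at
`i/2 + 1` if there is a meromorphic continuation, and `HasOrder i B (-r)` means that there is such a
continuation, with a pole of order `r` (a zero of order `-r` if `r` is negative).
-/

set_option autoImplicit false

namespace Pool.Agent.Results.MP_2b9663_nt.ProductPositivity

open NumberField IsDedekindDomain Filter Topology Polynomial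
open Pool.Agent.W353.EF (LFun size HasOrder)
open Pool.Agent.J4.H34.ED (IsProductSystem)

/-- **Positivity at the edge for products.**
1. Let `Y_j`, `j ∈ ι`, be geometrically connected smooth projective varieties over `K`, of dimensions
`d_j`.  For all real `c_j` and `θ`, the sum of `c_j c_k cos((i - d_j - d_k)θ) r_{jk}^i` over all `j`,
`k` and `0 ≤ i ≤ 2 d_j + 2 d_k` is at least `0`, if `r_{jk}^i` are the orders of the poles of
`L(H^i(Y_j × Y_k), s)` at `i/2 + 1`; without continuation the same is true up to `η` for the sizes.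
2. Let `Y` have dimension `d ≥ 1`.  `L(H^{2d}(Y × Y), s)` does not vanish at `d + 1`: a meromorphic
continuation has a pole of order `r ≥ 2` there, and `|r'| ≤ r` for the order `r'` of the pole of
`L(H^i(Y × Y), s)` at `i/2 + 1`, for all `i`.  Without continuation the same is true up to `η` for the
sizes.
3. Let `Y_j` be `N` varieties of dimension `d ≥ 1`, and let the sum of the squares of the Betti
numbers `b_k(Y_j)`, `0 < k < 2d`, be at most `M` for all `j`.  Suppose that `L(H^{2d}(Y_j × Y_k), s)`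
has a meromorphic continuation to a neighbourhood of `d + 1` for all `j ≠ k`.  Then the number `G` of
the pairs `j ≠ k` such that it does not vanish at `d + 1` satisfies `(M + 3) G ≥ 3 N (N - 1) - N M`. -/
theorem result (K : Type) [Field K] [NumberField K] :
    (∀ (ι : Type) [Fintype ι] (n : ι → ℕ) (X : ∀ j, Set (MvPolynomial (Fin (n j)) (𝓞 K)))
      (d : ι → ℕ) (b : ι → ℕ → ℕ) (B : ι → ι → ℕ → HeightOneSpectrum (𝓞 K) → ℂ[X]),
      (∀ j k, ∀ i ≤ 2 * d j + 2 * d k,
        IsProductSystem (X j) (d j) (b j) (X k) (d k) (b k) i (B j k i)) →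
      (∀ j k, ∀ i ≤ 2 * d j + 2 * d k,
        ∀ᶠ ε : ℝ in 𝓝[>] 0, LFun (B j k i) ((i : ℂ) / 2 + 1 + ε) ≠ 0) ∧
      (∀ (c : ι → ℝ) (θ η : ℝ), 0 < η → ∀ᶠ ε : ℝ in 𝓝[>] 0, -η ≤ ∑ j, ∑ k, c j * c k *
        ∑ i ∈ Finset.range (2 * d j + 2 * d k + 1),
          Real.cos (((i : ℝ) - d j - d k) * θ) * size i (B j k i) ε) ∧
      ∀ r : ι → ι → ℕ → ℤ, (∀ j k, ∀ i ≤ 2 * d j + 2 * d k, HasOrder i (B j k i) (-r j k i)) →
        ∀ (c : ι → ℝ) (θ : ℝ), 0 ≤ ∑ j, ∑ k, c j * c k *
          ∑ i ∈ Finset.range (2 * d j + 2 * d k + 1),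
            Real.cos (((i : ℝ) - d j - d k) * θ) * r j k i) ∧
    (∀ (n : ℕ) (X : Set (MvPolynomial (Fin n) (𝓞 K))) (d : ℕ) (b : ℕ → ℕ)
      (B : HeightOneSpectrum (𝓞 K) → ℂ[X]), 1 ≤ d → IsProductSystem X d b X d b (2 * d) B →
      (∀ η : ℝ, 0 < η → (∀ᶠ ε : ℝ in 𝓝[>] 0, 2 - η ≤ size (2 * d) B ε) ∧
        ∀ (i : ℕ) (B' : HeightOneSpectrum (𝓞 K) → ℂ[X]), IsProductSystem X d b X d b i B' →
          ∀ᶠ ε : ℝ in 𝓝[>] 0, |size i B' ε| ≤ size (2 * d) B ε + η) ∧
      ∀ r : ℤ, HasOrder (2 * d) B (-r) → 2 ≤ r ∧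
        ∀ (i : ℕ) (B' : HeightOneSpectrum (𝓞 K) → ℂ[X]) (r' : ℤ),
          IsProductSystem X d b X d b i B' → HasOrder i B' (-r') → |r'| ≤ r) ∧
    (∀ (ι : Type) [Fintype ι] [DecidableEq ι] (n : ι → ℕ)
      (X : ∀ j, Set (MvPolynomial (Fin (n j)) (𝓞 K))) (d : ℕ) (b : ι → ℕ → ℕ) (M : ℕ)
      (B : ι → ι → HeightOneSpectrum (𝓞 K) → ℂ[X]) (r : ι → ι → ℤ), 1 ≤ d →
      (∀ j, ∑ k ∈ Finset.Ioo 0 (2 * d), b j k ^ 2 ≤ M) →
      (∀ j k, j ≠ k → IsProductSystem (X j) d (b j) (X k) d (b k) (2 * d) (B j k) ∧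
        HasOrder (2 * d) (B j k) (-r j k)) →
      3 * (Fintype.card ι * (Fintype.card ι - 1)) ≤ Fintype.card ι * M + (M + 3) *
        ((Finset.univ : Finset (ι × ι)).filter fun p => p.1 ≠ p.2 ∧ 0 ≤ r p.1 p.2).card) :=
  ⟨fun _ _ _ _ _ _ _ hB => ⟨fun j k i hi => (Pool.Agent.J4.H34.ED.product_size i (hB j k i hi)).1,
      fun c θ _ hη => Pool.Agent.J4.H34.ED.psd_size hB c θ hη,
      fun _ hr c θ => Pool.Agent.J4.H34.ED.psd_order hB hr c θ⟩,
    fun _ _ _ _ _ hd hB => ⟨fun _ hη => Pool.Agent.J4.H34.ED.self_size hd hB hη,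
      fun _ hr => Pool.Agent.J4.H34.ED.self_order hd hB hr⟩,
    fun _ _ _ _ _ _ _ _ _ _ hd hM h => Pool.Agent.J4.H34.ED.family hd
      (fun j k hjk => (h j k hjk).1) (fun j k hjk => (h j k hjk).2) hM⟩

end Pool.Agent.Results.MP_2b9663_nt.ProductPositivity
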